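import Pool.Agent.Helper63.Sey3.Goals
import Pool.Agent.Helper41.Girth4.Prob

/-!
# Packet SEY3-HOE: exponential concentration for locally dependent events
-/

open MeasureTheory ProbabilityTheory

namespace Pool.Agent.Helper69.Sey3

open Pool.Agent.Helper41.Girth4 (Pr Pr_eq_sum Pr_nonneg Pr_mono Pr_le_one Pr_exists_le)
open Pool.Agent.Helper63.Sey3 (GoalHOE)

/-! ### Hoeffding for one Bernoulli variable -/

theorem bern (q x : ℝ) (h0 : 0 ≤ q) (h1 : q ≤ 1) :
    (1 - q) * Real.exp (-(x * q)) + q * Real.exp (x * (1 - q)) ≤ Real.exp (x ^ 2 / 8) := by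
  set μ : Measure ℝ := ENNReal.ofReal (1 - q) • Measure.dirac 0 + ENNReal.ofReal q • Measure.dirac 1
    with hμ
  have : IsProbabilityMeasure μ := by
    constructor
    rw [hμ, Measure.add_apply, Measure.smul_apply, Measure.smul_apply, Measure.dirac_apply_of_mem
      (Set.mem_univ _), Measure.dirac_apply_of_mem (Set.mem_univ _), smul_eq_mul, smul_eq_mul,
      mul_one, mul_one, ← ENNReal.ofReal_add (by linarith) h0]
    norm_num
  have hint : ∀ f : ℝ → ℝ, Continuous f → ∫ y, f y ∂μ = (1 - q) * f 0 + q * f 1 := by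
    intro f hf
    rw [hμ, integral_add_measure, integral_smul_measure, integral_smul_measure, integral_dirac,
      integral_dirac, ENNReal.toReal_ofReal (by linarith), ENNReal.toReal_ofReal h0, smul_eq_mul,
      smul_eq_mul]
    · exact (integrable_dirac (by simp)).smul_measure ENNReal.ofReal_ne_top
    · exact (integrable_dirac (by simp)).smul_measure ENNReal.ofReal_ne_top
  have hb : ∀ᵐ y ∂μ, y ∈ Set.Icc (0 : ℝ) 1 := by
    rw [hμ, ae_iff, Measure.add_apply, Measure.smul_apply, Measure.smul_apply]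
    have hm : MeasurableSet {y : ℝ | ¬ y ∈ Set.Icc (0 : ℝ) 1} := measurableSet_Icc.compl
    rw [Measure.dirac_apply' _ hm, Measure.dirac_apply' _ hm]
    simp
  have h := hasSubgaussianMGF_of_mem_Icc (μ := μ) (X := fun y => y) (a := 0) (b := 1)
    aemeasurable_id hb
  have h2 := h.mgf_le x
  have hE : ∫ y, y ∂μ = q := by
    rw [hint (fun y => y) continuous_id]
    ring
  rw [mgf, hint _ (by fun_prop), hE] at h2
  have e1 : x * ((0 : ℝ) - q) = -(x * q) := by ring
  rw [e1] at h2
  refine h2.trans (le_of_eq ?_)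
  congr 1
  norm_num
  ring

/-! ### Averages -/

section
variable {V L : Type} [Fintype V] [Fintype L] [DecidableEq V]

/-- The mean value. -/
noncomputable def av (f : (V → L) → ℝ) : ℝ := (∑ ω, f ω) / Fintype.card (V → L)

theorem av_mul [Nonempty L] (S : Set V) (f g : (V → L) → ℝ)
    (hf : ∀ ω ω', (∀ i ∈ S, ω i = ω' i) → f ω = f ω')
    (hg : ∀ ω ω', (∀ i, i ∉ S → ω i = ω' i) → g ω = g ω') :
    av (fun ω => f ω * g ω) = av f * av g := by
  classical
  obtain ⟨l⟩ := ‹Nonempty L›
  have : Nonempty L := ⟨l⟩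
  let p : V → Prop := fun b => b ∈ S
  let E : (V → L) ≃ ({b // p b} → L) × ({b // ¬ p b} → L) := Equiv.piEquivPiSubtypeProd p _
  let F : ({b // p b} → L) → ℝ := fun y => f (E.symm (y, fun _ => l))
  let G : ({b // ¬ p b} → L) → ℝ := fun z => g (E.symm (fun _ => l, z))
  have hE1 : ∀ y z i, (h : i ∈ S) → E.symm (y, z) i = y ⟨i, h⟩ := by
    intro y z i h
    simp [E, p, Equiv.piEquivPiSubtypeProd, h]
  have hE2 : ∀ y z i, (h : i ∉ S) → E.symm (y, z) i = z ⟨i, h⟩ := by
    intro y z i h
    simp [E, p, Equiv.piEquivPiSubtypeProd, h]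
  have hF : ∀ ω, f ω = F (E ω).1 := by
    intro ω
    apply hf
    intro i hi
    rw [hE1 _ _ i hi]
    rfl
  have hG : ∀ ω, g ω = G (E ω).2 := by
    intro ω
    apply hg
    intro i hi
    rw [hE2 _ _ i hi]
    rfl
  have s1 : ∑ ω, f ω = (Fintype.card ({b // ¬ p b} → L) : ℝ) * ∑ y, F y := by
    rw [Fintype.sum_equiv E f (fun z => F z.1) hF, Fintype.sum_prod_type]
    simp [Finset.mul_sum]
  have s2 : ∑ ω, g ω = (Fintype.card ({b // p b} → L) : ℝ) * ∑ z, G z := by
    rw [Fintype.sum_equiv E g (fun z => G z.2) hG, Fintype.sum_prod_type]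
    simp
  have s3 : ∑ ω, f ω * g ω = (∑ y, F y) * ∑ z, G z := by
    rw [Fintype.sum_equiv E (fun ω => f ω * g ω) (fun z => F z.1 * G z.2)
      (fun ω => by rw [hF, hG]), Fintype.sum_prod_type, Finset.sum_mul_sum]
  have s4 : (Fintype.card (V → L) : ℝ) =
      Fintype.card ({b // p b} → L) * Fintype.card ({b // ¬ p b} → L) := by
    rw [Fintype.card_congr E, Fintype.card_prod]
    push_cast
    rfl
  have n1 : (Fintype.card ({b // p b} → L) : ℝ) ≠ 0 := Nat.cast_ne_zero.2 Fintype.card_ne_zero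
  have n2 : (Fintype.card ({b // ¬ p b} → L) : ℝ) ≠ 0 := Nat.cast_ne_zero.2 Fintype.card_ne_zero
  unfold av
  rw [s1, s2, s3, s4]
  field_simp

theorem av_one [Nonempty L] : av (fun _ : V → L => 1) = 1 := by
  unfold av
  rw [Finset.sum_const, Finset.card_univ, nsmul_eq_mul, mul_one, div_self]
  exact Nat.cast_ne_zero.2 Fintype.card_ne_zero

theorem av_prod [Nonempty L] (Reg : V → Set V) (T : Finset V) (f : V → (V → L) → ℝ)
    (hf : ∀ s ∈ T, ∀ ω ω', (∀ i ∈ Reg s, ω i = ω' i) → f s ω = f s ω')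
    (hd : ∀ s ∈ T, ∀ t ∈ T, s ≠ t → Disjoint (Reg s) (Reg t)) :
    av (fun ω => ∏ s ∈ T, f s ω) = ∏ s ∈ T, av (f s) := by
  induction T using Finset.induction_on with
  | empty => simp [av_one]
  | insert a T ha ih =>
    rw [Finset.prod_insert ha, ← ih (fun s hs => hf s (Finset.mem_insert_of_mem hs))
      (fun s hs t ht => hd s (Finset.mem_insert_of_mem hs) t (Finset.mem_insert_of_mem ht)),
      ← av_mul (Reg a) (f a) (fun ω => ∏ s ∈ T, f s ω) (hf a (Finset.mem_insert_self _ _))]
    · simp only [Finset.prod_insert ha]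
    · intro ω ω' h
      refine Finset.prod_congr rfl fun s hs => ?_
      refine hf s (Finset.mem_insert_of_mem hs) ω ω' fun i hi => h i ?_
      have h1 := hd a (Finset.mem_insert_self _ _) s (Finset.mem_insert_of_mem hs)
        (fun e => ha (by rw [e]; exact hs))
      exact fun h2 => Set.disjoint_left.1 h1 h2 hi

theorem av_mono {f g : (V → L) → ℝ} (h : ∀ ω, f ω ≤ g ω) : av f ≤ av g := by
  unfold av
  exact div_le_div_of_nonneg_right (Finset.sum_le_sum fun ω _ => h ω) (Nat.cast_nonneg _)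

theorem av_nonneg {f : (V → L) → ℝ} (h : ∀ ω, 0 ≤ f ω) : 0 ≤ av f :=
  div_nonneg (Finset.sum_nonneg fun ω _ => h ω) (Nat.cast_nonneg _)

theorem Pr_eq_av (A : (V → L) → Prop) [DecidablePred A] :
    Pr A = av (fun ω => if A ω then (1 : ℝ) else 0) := Pr_eq_sum A

/-- The moment generating function of a weighted indicator. -/
theorem av_ind [Nonempty L] (A : (V → L) → Prop) [DecidablePred A] (w s : ℝ) :
    av (fun ω => Real.exp (-(s * (w * ((if A ω then 1 else 0) - Pr A))))) =
      (1 - Pr A) * Real.exp (-((-(s * w)) * Pr A)) +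
        Pr A * Real.exp ((-(s * w)) * (1 - Pr A)) := by
  have h1 : ∀ ω, Real.exp (-(s * (w * ((if A ω then 1 else 0) - Pr A)))) =
      Real.exp (-((-(s * w)) * Pr A)) * 1 + (Real.exp ((-(s * w)) * (1 - Pr A)) -
        Real.exp (-((-(s * w)) * Pr A))) * (if A ω then (1 : ℝ) else 0) := by
    intro ω
    split_ifs
    · have e : -(s * (w * (1 - Pr A))) = (-(s * w)) * (1 - Pr A) := by ring
      rw [e]
      ring
    · have e : -(s * (w * (0 - Pr A))) = -((-(s * w)) * Pr A) := by ring
      rw [e]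
      ring
  have h2 : ∀ (a b : ℝ) (f g : (V → L) → ℝ),
      av (fun ω => a * f ω + b * g ω) = a * av f + b * av g := by
    intro a b f g
    unfold av
    rw [Finset.sum_add_distrib, ← Finset.mul_sum, ← Finset.mul_sum]
    ring
  simp only [h1]
  rw [h2 _ _ (fun _ => 1), av_one, ← Pr_eq_av A]
  ring

theorem av_ind_le [Nonempty L] (A : (V → L) → Prop) [DecidablePred A] (w s : ℝ) (hw0 : 0 ≤ w)
    (hw : w ≤ 2) :
    av (fun ω => Real.exp (-(s * (w * ((if A ω then 1 else 0) - Pr A))))) ≤
      Real.exp (s ^ 2 / 2) := by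
  rw [av_ind]
  refine (bern (Pr A) (-(s * w)) (Pr_nonneg A) (Pr_le_one A)).trans ?_
  rw [Real.exp_le_exp]
  have h1 : (-(s * w)) ^ 2 = s ^ 2 * w ^ 2 := by ring
  rw [h1]
  have h2 : w ^ 2 ≤ 4 := by nlinarith
  nlinarith [sq_nonneg s]

/-- Hoeffding for weighted independent events. -/
theorem hoeff [Nonempty L] (Reg : V → Set V) (T : Finset V) (A : V → (V → L) → Prop)
    [∀ s, DecidablePred (A s)] (wt : V → ℝ) (hw0 : ∀ v, 0 ≤ wt v) (hw : ∀ v, wt v ≤ 2)
    (hA : ∀ s ω ω', (∀ i ∈ Reg s, ω i = ω' i) → A s ω → A s ω')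
    (hd : ∀ s ∈ T, ∀ t ∈ T, s ≠ t → Disjoint (Reg s) (Reg t)) (s lam : ℝ) (hs : 0 ≤ s) :
    Pr (fun ω => ∑ v ∈ T, wt v * ((if A v ω then 1 else 0) - Pr (A v)) ≤ -lam) ≤
      Real.exp (-(s * lam) + s ^ 2 / 2 * T.card) := by
  classical
  rw [Pr_eq_av]
  have h1 : av (fun ω => if ∑ v ∈ T, wt v * ((if A v ω then 1 else 0) - Pr (A v)) ≤ -lam
      then (1 : ℝ) else 0) ≤ av (fun ω => ∏ v ∈ T,
        Real.exp (-(s * (wt v * ((if A v ω then 1 else 0) - Pr (A v)))))) *
          Real.exp (-(s * lam)) := by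
    have h2 : av (fun ω => ∏ v ∈ T,
        Real.exp (-(s * (wt v * ((if A v ω then 1 else 0) - Pr (A v)))))) *
          Real.exp (-(s * lam)) = av (fun ω => (∏ v ∈ T,
        Real.exp (-(s * (wt v * ((if A v ω then 1 else 0) - Pr (A v)))))) *
          Real.exp (-(s * lam))) := by
      unfold av
      rw [← Finset.sum_mul]
      ring
    rw [h2]
    refine av_mono fun ω => ?_
    have h3 : (∏ v ∈ T, Real.exp (-(s * (wt v * ((if A v ω then 1 else 0) - Pr (A v)))))) *
        Real.exp (-(s * lam)) =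
        Real.exp (s * (-lam - ∑ v ∈ T, wt v * ((if A v ω then 1 else 0) - Pr (A v)))) := by
      rw [← Real.exp_sum, ← Real.exp_add]
      congr 1
      rw [Finset.sum_neg_distrib, ← Finset.mul_sum]
      ring
    rw [h3]
    split_ifs with h4
    · exact Real.one_le_exp (mul_nonneg hs (by linarith))
    · exact (Real.exp_pos _).le
  refine h1.trans ?_
  rw [av_prod Reg T _ ?_ hd, Real.exp_add, mul_comm]
  · refine mul_le_mul_of_nonneg_left ?_ (Real.exp_pos _).le
    calc ∏ v ∈ T, av (fun ω => Real.exp (-(s * (wt v * ((if A v ω then 1 else 0) - Pr (A v))))))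
        ≤ ∏ v ∈ T, Real.exp (s ^ 2 / 2) := by
          refine Finset.prod_le_prod (fun v _ => av_nonneg fun ω => (Real.exp_pos _).le)
            (fun v _ => av_ind_le (A v) (wt v) s (hw0 v) (hw v))
      _ = Real.exp (s ^ 2 / 2 * T.card) := by
          rw [Finset.prod_const, ← Real.exp_nat_mul, mul_comm]
  · intro v _ ω ω' h
    have h5 : A v ω ↔ A v ω' := ⟨hA v ω ω' h, hA v ω' ω fun i hi => (h i hi).symm⟩
    simp only [h5]

end

/-! ### Greedy colouring -/

theorem greedy {V : Type} [Finite V] (Reg : V → Set V) (R : ℕ) (hR : 1 ≤ R) (S : Finset V)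
    (hS : ∀ s ∈ S, Nat.card {t // ¬ Disjoint (Reg s) (Reg t)} ≤ R) :
    ∃ c : V → ℕ, (∀ s ∈ S, c s < R) ∧
      ∀ s ∈ S, ∀ t ∈ S, s ≠ t → c s = c t → Disjoint (Reg s) (Reg t) := by
  classical
  have := Fintype.ofFinite V
  induction S using Finset.induction_on with
  | empty => exact ⟨fun _ => 0, by simp, by simp⟩
  | insert a S ha ih =>
    obtain ⟨c, hc1, hc2⟩ := ih fun s hs => hS s (Finset.mem_insert_of_mem hs)
    set N := S.filter (fun t => ¬ Disjoint (Reg a) (Reg t)) with hN
    have hcard : N.card < R := by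
      rcases Finset.eq_empty_or_nonempty N with h0 | ⟨t, ht⟩
      · rw [h0, Finset.card_empty]
        exact hR
      · have haa : ¬ Disjoint (Reg a) (Reg a) := by
          rw [hN, Finset.mem_filter] at ht
          intro h
          rw [disjoint_self] at h
          apply ht.2
          rw [h]
          exact disjoint_bot_left
        have h1 : insert a N ⊆ Finset.univ.filter (fun t => ¬ Disjoint (Reg a) (Reg t)) := by
          intro x hx
          rw [Finset.mem_insert] at hx
          rw [Finset.mem_filter]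
          refine ⟨Finset.mem_univ _, ?_⟩
          rcases hx with rfl | hx
          · exact haa
          · exact (Finset.mem_filter.1 hx).2
        have h2 := Finset.card_le_card h1
        rw [Finset.card_insert_of_notMem (fun h => ha (Finset.mem_filter.1 h).1)] at h2
        have h3 := hS a (Finset.mem_insert_self _ _)
        rw [Nat.card_eq_fintype_card, Fintype.card_subtype] at h3
        exact h2.trans h3
    have hfree : ∃ k ∈ Finset.range R, k ∉ N.image c := by
      by_contra hcon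
      push Not at hcon
      have h1 := Finset.card_le_card (fun k hk => hcon k hk : Finset.range R ⊆ N.image c)
      rw [Finset.card_range] at h1
      have h2 := Finset.card_image_le (s := N) (f := c)
      omega
    obtain ⟨k, hk, hkN⟩ := hfree
    refine ⟨Function.update c a k, ?_, ?_⟩
    · intro s hs
      by_cases h : s = a
      · subst h
        rw [Function.update_self]
        exact Finset.mem_range.1 hk
      · rw [Function.update_of_ne h]
        exact hc1 s (Finset.mem_of_mem_insert_of_ne hs h)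
    · intro s hs t ht hst hct
      by_cases h : s = a
      · subst h
        have ht' : t ∈ S := Finset.mem_of_mem_insert_of_ne ht hst.symm
        rw [Function.update_self, Function.update_of_ne hst.symm] at hct
        by_contra hcon
        exact hkN (Finset.mem_image.2 ⟨t, Finset.mem_filter.2 ⟨ht', hcon⟩, hct.symm⟩)
      · have hs' : s ∈ S := Finset.mem_of_mem_insert_of_ne hs h
        by_cases h' : t = a
        · subst h'
          rw [Function.update_self, Function.update_of_ne h] at hct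
          by_contra hcon
          exact hkN (Finset.mem_image.2 ⟨s, Finset.mem_filter.2 ⟨hs', fun h => hcon h.symm⟩, hct⟩)
        · rw [Function.update_of_ne h, Function.update_of_ne h'] at hct
          exact hc2 s hs' t (Finset.mem_of_mem_insert_of_ne ht h') hst hct

theorem goalHOE : GoalHOE := by
  classical
  intro V L _ _ _ S A Reg R wt p δ hSn hR hp hδ hwt hA hdeg hpr
  obtain ⟨c, hc1, hc2⟩ := greedy Reg R hR S hdeg
  have hn : (1 : ℝ) ≤ S.card := by
    exact_mod_cast hSn.card_pos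
  have hR' : (1 : ℝ) ≤ R := by exact_mod_cast hR
  set W : ℝ := ∑ s ∈ S, (wt s : ℝ) with hW
  have hWn : (S.card : ℝ) ≤ W := by
    rw [hW, Finset.card_eq_sum_ones]
    push_cast
    exact Finset.sum_le_sum fun s _ => by exact_mod_cast (hwt s).1
  set lam : ℝ := δ * p * W / R with hlam
  set T : ℕ → Finset V := fun i => S.filter (fun v => c v = i) with hT
  set Y : ℕ → (V → L) → ℝ :=
    fun i ω => ∑ v ∈ T i, (wt v : ℝ) * ((if A v ω then 1 else 0) - Pr (A v)) with hY
  have hsplit : ∀ g : V → ℝ, ∑ i ∈ Finset.range R, ∑ v ∈ T i, g v = ∑ v ∈ S, g v := by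
    intro g
    exact Finset.sum_fiberwise_of_maps_to (fun v hv => Finset.mem_range.2 (hc1 v hv)) g
  have hev : ∀ ω, (∑ s ∈ S.filter (fun s => A s ω), (wt s : ℝ)) ≤ (1 - δ) * p * W →
      ∃ i ∈ Finset.range R, Y i ω ≤ -lam := by
    intro ω h
    by_contra hcon
    push Not at hcon
    have h1 : ∑ i ∈ Finset.range R, (-lam) < ∑ i ∈ Finset.range R, Y i ω :=
      Finset.sum_lt_sum_of_nonempty ⟨0, Finset.mem_range.2 hR⟩ hcon
    rw [hsplit] at h1
    rw [Finset.sum_const, Finset.card_range, nsmul_eq_mul] at h1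
    have h2 : (R : ℝ) * (-lam) = -(δ * p * W) := by
      rw [hlam]
      field_simp
    have h3 : ∑ v ∈ S, (wt v : ℝ) * ((if A v ω then 1 else 0) - Pr (A v)) =
        (∑ s ∈ S.filter (fun s => A s ω), (wt s : ℝ)) - ∑ v ∈ S, (wt v : ℝ) * Pr (A v) := by
      rw [Finset.sum_filter, ← Finset.sum_sub_distrib]
      refine Finset.sum_congr rfl fun v _ => ?_
      split_ifs <;> ring
    have h4 : p * W ≤ ∑ v ∈ S, (wt v : ℝ) * Pr (A v) := by
      rw [hW, Finset.mul_sum]
      refine Finset.sum_le_sum fun v hv => ?_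
      have := hpr v hv
      have h5 : (0 : ℝ) ≤ wt v := Nat.cast_nonneg _
      nlinarith
    rw [h2, h3] at h1
    nlinarith
  have h1 : Pr (fun ω => (∑ s ∈ S.filter (fun s => A s ω), (wt s : ℝ)) ≤ (1 - δ) * p * W) ≤
      ∑ i ∈ Finset.range R, Pr (fun ω => Y i ω ≤ -lam) :=
    (Pr_mono hev).trans (Pr_exists_le _ _)
  refine h1.trans ?_
  have hlam0 : 0 ≤ lam := by positivity
  set s : ℝ := lam / S.card with hs
  have hs0 : 0 ≤ s := by positivity
  have h2 : ∀ i ∈ Finset.range R, Pr (fun ω => Y i ω ≤ -lam) ≤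
      Real.exp (-(δ ^ 2 * p ^ 2 * S.card / (2 * R ^ 2))) := by
    intro i _
    refine (hoeff Reg (T i) A (fun v => (wt v : ℝ)) (fun v => Nat.cast_nonneg _)
      (fun v => by exact_mod_cast (hwt v).2) hA ?_ s lam hs0).trans ?_
    · intro v hv t ht hvt
      rw [hT, Finset.mem_filter] at hv ht
      exact hc2 v hv.1 t ht.1 hvt (hv.2.trans ht.2.symm)
    · rw [Real.exp_le_exp]
      have h3 : ((T i).card : ℝ) ≤ S.card := by
        exact_mod_cast Finset.card_le_card (Finset.filter_subset _ _)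
      have h4 : s ^ 2 / 2 * (T i).card ≤ s ^ 2 / 2 * S.card :=
        mul_le_mul_of_nonneg_left h3 (by positivity)
      have h5 : s ^ 2 / 2 * S.card = lam ^ 2 / (2 * S.card) := by
        rw [hs]
        field_simp
      have h6 : s * lam = 2 * (lam ^ 2 / (2 * S.card)) := by
        rw [hs]
        field_simp
      have h7 : δ ^ 2 * p ^ 2 * S.card / (2 * R ^ 2) ≤ lam ^ 2 / (2 * S.card) := by
        rw [hlam, div_pow, div_div, div_le_div_iff₀ (by positivity) (by positivity)]
        have h8 : (S.card : ℝ) * S.card ≤ W ^ 2 := by nlinarith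
        have h9 : 0 ≤ δ ^ 2 * p ^ 2 * (2 * (R : ℝ) ^ 2) := by positivity
        nlinarith [mul_le_mul_of_nonneg_left h8 h9]
      linarith
  calc ∑ i ∈ Finset.range R, Pr (fun ω => Y i ω ≤ -lam)
      ≤ ∑ i ∈ Finset.range R, Real.exp (-(δ ^ 2 * p ^ 2 * S.card / (2 * R ^ 2))) :=
        Finset.sum_le_sum h2
    _ = R * Real.exp (-(δ ^ 2 * p ^ 2 * S.card / (2 * R ^ 2))) := by
        rw [Finset.sum_const, Finset.card_range, nsmul_eq_mul]

end Pool.Agent.Helper69.Sey3
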